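import Pool.Agent.H5.SC.Targets

/-!
# MP_04ff0f_nt, theorem SmallCofactors: the greedy divisor and the rough part
-/

set_option autoImplicit false

open Finset Real

namespace Pool.Agent.H8.SC

open Pool.Agent.H5.SC

theorem sm_mul_rg (y N : ℕ) (hN : N ≠ 0) : sm y N * rg y N = N := by
  unfold sm rg
  rw [Finset.prod_filter_mul_prod_filter_not]
  exact Nat.prod_factorization_pow_eq_self hN

theorem prime_dvd_sm {y N q : ℕ} (hq : q.Prime) (h : q ∣ sm y N) : q ≤ y := by
  unfold sm at h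
  rcases (hq.prime.dvd_finsetProd_iff _).1 h with ⟨r, hr, hd⟩
  have hr' := Finset.mem_filter.1 hr
  have hrp := Nat.prime_of_mem_primeFactors hr'.1
  have he := (Nat.prime_dvd_prime_iff_eq hq hrp).1 (hq.dvd_of_dvd_pow hd)
  rw [he]
  exact hr'.2

theorem prime_dvd_rg {y N q : ℕ} (hq : q.Prime) (h : q ∣ rg y N) : y < q := by
  unfold rg at h
  rcases (hq.prime.dvd_finsetProd_iff _).1 h with ⟨r, hr, hd⟩
  have hr' := Finset.mem_filter.1 hr
  have hrp := Nat.prime_of_mem_primeFactors hr'.1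
  have he := (Nat.prime_dvd_prime_iff_eq hq hrp).1 (hq.dvd_of_dvd_pow hd)
  rw [he]
  exact not_le.1 hr'.2

theorem pf_RO : T_RO := by
  intro y N hN
  have h1 := sm_mul_rg y N hN
  have hr0 : rg y N ≠ 0 := by
    intro h
    rw [h, mul_zero] at h1
    exact hN h1.symm
  refine ⟨h1, fun q hq => ?_, ?_⟩
  · have hq' := Nat.mem_primeFactors.1 hq
    exact prime_dvd_rg hq'.1 hq'.2.1
  · have h2 : (y + 1) ^ (rg y N).primeFactorsList.length ≤ (rg y N).primeFactorsList.prod := by
      refine List.pow_card_le_prod _ _ ?_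
      intro q hq
      have hq' := (Nat.mem_primeFactorsList hr0).1 hq
      exact prime_dvd_rg hq'.1 hq'.2
    rw [Nat.prod_primeFactorsList hr0] at h2
    refine h2.trans (Nat.le_of_dvd (Nat.pos_of_ne_zero hN) ?_)
    exact Dvd.intro_left _ h1

theorem pf_GR : T_GR := by
  intro y D N hN hD hs
  have h1 := sm_mul_rg y N hN
  have hs0 : sm y N ≠ 0 := by omega
  classical
  let S : Finset ℕ := (sm y N).divisors.filter (fun d => d ≤ D)
  have hne : S.Nonempty := ⟨1, Finset.mem_filter.2 ⟨Nat.one_mem_divisors.2 hs0, hD⟩⟩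
  obtain ⟨d, hd, hmax⟩ := S.exists_max_image id hne
  have hd' := Finset.mem_filter.1 hd
  have hdv : d ∣ sm y N := Nat.dvd_of_mem_divisors hd'.1
  obtain ⟨e, he⟩ := hdv
  have he1 : e ≠ 1 := by
    intro h
    rw [h, mul_one] at he
    have := hd'.2
    omega
  obtain ⟨q, hq, hqe⟩ := Nat.exists_prime_and_dvd he1
  have hqs : q ∣ sm y N := he ▸ (hqe.trans (Dvd.intro_left d rfl))
  have hqy : q ≤ y := prime_dvd_sm hq hqs
  refine ⟨d, ?_, ?_, hd'.2, ?_⟩
  · rw [← h1]
    exact (Dvd.intro e he.symm).trans (Dvd.intro _ rfl)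
  · intro p hp
    have hp' := Nat.mem_primeFactors.1 hp
    exact prime_dvd_sm hp'.1 (hp'.2.1.trans (Dvd.intro e he.symm))
  · by_contra hc
    have hle : d * q ≤ D := (Nat.mul_le_mul_left d hqy).trans (not_lt.1 hc)
    have hmem : d * q ∈ S := by
      refine Finset.mem_filter.2 ⟨Nat.mem_divisors.2 ⟨?_, hs0⟩, hle⟩
      rw [he]
      exact Nat.mul_dvd_mul_left d hqe
    have hb := hmax _ hmem
    have hd0 : 0 < d := Nat.pos_of_ne_zero (by
      intro h
      rw [h, zero_mul] at he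
      exact hs0 he)
    have h2 := hq.two_le
    simp only [id] at hb
    nlinarith

end Pool.Agent.H8.SC
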